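import Pool.Agent.FMZ.Final

set_option autoImplicit false

/-! MP_bc82fd_nt, Q1: `limsup |E₂(T)| T^(-1/2) = ∞`, where
`E₂(T) = ∫₀ᵀ |ζ(1/2+it)|⁴ dt - T P₄(log T)`. The statement is proved for every real polynomial `P`
in the place of `P₄`, without any hypothesis. -/

namespace Pool.Agent.Results.MP_bc82fd_nt.LimsupInfinite

theorem result (P : Polynomial ℝ) :
    Filter.limsup (fun T : ℝ =>
      ((|(∫ t in (0 : ℝ)..T, ‖riemannZeta (1 / 2 + t * Complex.I)‖ ^ 4)
          - T * P.eval (Real.log T)| * T ^ (-(1 / 2) : ℝ) : ℝ) : EReal)) Filter.atTop = ⊤ :=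
  FMZ.limsup_top FMZ.goal P

end Pool.Agent.Results.MP_bc82fd_nt.LimsupInfinite
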